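import Pool.Agent.NH5.AB.Main
import Pool.Agent.Y405.CQ.MER
import Pool.Agent.Y302.CQ.CHE
import Pool.Agent.Y302.CQ.LowA

/-!
Mertens' theorem for the classes of primes.
-/

set_option autoImplicit false

open Finset

namespace Pool.Agent.NH5.ABN

open Pool.Agent.NH5.AB (TypA TypB)
open Pool.Agent.Y687 (Inert)
open scoped Classical

/-- the primes with the property `c` up to `y` -/
noncomputable def PP (c : ℕ → Prop) (y : ℕ) : Finset ℕ := (range (y + 1)).filter fun p => c p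

theorem mem_PP {c : ℕ → Prop} {y p : ℕ} : p ∈ PP c y ↔ p ≤ y ∧ c p := by
  unfold PP
  rw [mem_filter, mem_range]
  exact and_congr_left fun _ => by omega

/-- Mertens for a set of residues -/
theorem mer_res (R : Finset ℕ) (hR : ∀ a ∈ R, Nat.Coprime a 56 ∧ a < 56) (c : ℕ → Prop)
    (hc : ∀ p, c p ↔ p.Prime ∧ p % 56 ∈ R) : ∃ C : ℝ, 0 ≤ C ∧ ∀ y : ℕ, 3 ≤ y →
    |∑ p ∈ PP c y, (1 : ℝ) / p - (R.card : ℝ) / 24 * Real.log (Real.log y)| ≤ C := by
  have hM' : ∀ a : ℕ, ∃ C : ℝ, Nat.Coprime a 56 → ∀ y : ℕ, 3 ≤ y →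
      |∑ p ∈ (range (y + 1)).filter (fun p => p.Prime ∧ p % 56 = a % 56), (1 : ℝ) / p -
        1 / 24 * Real.log (Real.log y)| ≤ C := by
    intro a
    by_cases ha : Nat.Coprime a 56
    · obtain ⟨C, hC⟩ := Pool.Agent.Y405.CQ.t_MER a ha
      exact ⟨C, fun _ => hC⟩
    · exact ⟨0, fun h => absurd h ha⟩
  choose C hC using hM'
  refine ⟨|∑ a ∈ R, C a|, abs_nonneg _, fun y hy => le_trans ?_ (le_abs_self _)⟩
  have e1 : ∑ p ∈ PP c y, (1 : ℝ) / p = ∑ a ∈ R,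
      ∑ p ∈ (range (y + 1)).filter (fun p => p.Prime ∧ p % 56 = a % 56), (1 : ℝ) / p := by
    have hmaps : ∀ p ∈ PP c y, p % 56 ∈ R := fun p hp => ((hc p).1 (mem_PP.1 hp).2).2
    rw [← Finset.sum_fiberwise_of_maps_to hmaps]
    refine Finset.sum_congr rfl fun a ha => ?_
    refine Finset.sum_congr ?_ fun _ _ => rfl
    have ha56 : a % 56 = a := Nat.mod_eq_of_lt (hR a ha).2
    ext p
    rw [mem_filter, mem_PP, hc, mem_filter, mem_range, ha56]
    constructor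
    · rintro ⟨⟨h1, h2, -⟩, h3⟩
      exact ⟨by omega, h2, h3⟩
    · rintro ⟨h1, h2, h3⟩
      exact ⟨⟨by omega, h2, by rw [h3]; exact ha⟩, h3⟩
  have e2 : ∑ p ∈ PP c y, (1 : ℝ) / p - (R.card : ℝ) / 24 * Real.log (Real.log y) = ∑ a ∈ R,
      (∑ p ∈ (range (y + 1)).filter (fun p => p.Prime ∧ p % 56 = a % 56), (1 : ℝ) / p -
        1 / 24 * Real.log (Real.log y)) := by
    rw [e1, Finset.sum_sub_distrib, Finset.sum_const, nsmul_eq_mul]
    ring
  rw [e2]
  refine (Finset.abs_sum_le_sum_abs _ _).trans (Finset.sum_le_sum fun a ha => ?_)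
  exact hC a (hR a ha).1 y hy

theorem typA_iff (p : ℕ) : TypA p ↔ p.Prime ∧ p % 56 ∈ ({17, 33, 41} : Finset ℕ) := by
  unfold TypA
  refine and_congr_right fun _ => ?_
  simp only [mem_insert, mem_singleton]
  omega

theorem typB_iff (p : ℕ) : TypB p ↔ p.Prime ∧ p % 56 ∈ ({29, 37, 53} : Finset ℕ) := by
  unfold TypB
  refine and_congr_right fun _ => ?_
  simp only [mem_insert, mem_singleton]
  omega

theorem inert_iff (p : ℕ) : Inert p ↔ p.Prime ∧ p % 56 ∈ ({5, 13, 45} : Finset ℕ) := by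
  unfold Inert
  refine and_congr_right fun _ => ?_
  simp only [mem_insert, mem_singleton]
  omega

/-- Mertens for the three classes -/
theorem mer3 : ∃ C : ℝ, 1 ≤ C ∧ ∀ y : ℕ, 3 ≤ y →
    |∑ p ∈ PP TypA y, (1 : ℝ) / p - 1 / 8 * Real.log (Real.log y)| ≤ C ∧
    |∑ p ∈ PP TypB y, (1 : ℝ) / p - 1 / 8 * Real.log (Real.log y)| ≤ C ∧
    |∑ p ∈ PP Inert y, (1 : ℝ) / p - 1 / 8 * Real.log (Real.log y)| ≤ C := by
  obtain ⟨C1, h10, h1⟩ := mer_res {17, 33, 41} (by decide) TypA typA_iff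
  obtain ⟨C2, h20, h2⟩ := mer_res {29, 37, 53} (by decide) TypB typB_iff
  obtain ⟨C3, h30, h3⟩ := mer_res {5, 13, 45} (by decide) Inert inert_iff
  refine ⟨1 + C1 + C2 + C3, by linarith, fun y hy => ?_⟩
  have k1 := h1 y hy
  have k2 := h2 y hy
  have k3 := h3 y hy
  rw [show ((({17, 33, 41} : Finset ℕ).card : ℝ)) / 24 = 1 / 8 by norm_num] at k1
  rw [show ((({29, 37, 53} : Finset ℕ).card : ℝ)) / 24 = 1 / 8 by norm_num] at k2
  rw [show ((({5, 13, 45} : Finset ℕ).card : ℝ)) / 24 = 1 / 8 by norm_num] at k3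
  exact ⟨by linarith, by linarith, by linarith⟩

/-- the residues modulo `56` of the primes which are not in the class of the inert primes -/
def ResQ : Finset ℕ := (range 56).filter fun a => Nat.Coprime a 56 ∧ a ∉ ({5, 13, 45} : Finset ℕ)

theorem card_ResQ : ResQ.card = 21 := by decide

/-- Mertens for the complement -/
theorem merP2 : ∃ C : ℝ, ∀ y : ℕ, 3 ≤ y →
    ∑ p ∈ Pool.Agent.Y302.CQ.P2 Inert y, (1 : ℝ) / p ≤ 7 / 8 * Real.log (Real.log y) + C := by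
  obtain ⟨C, -, hC⟩ := mer_res ResQ (by
    intro a ha
    unfold ResQ at ha
    rw [mem_filter, mem_range] at ha
    exact ⟨ha.2.1, ha.1⟩) (fun p => p.Prime ∧ p % 56 ∈ ResQ) (fun p => Iff.rfl)
  refine ⟨C + (1 / 2 + 1 / 7), fun y hy => ?_⟩
  have h1 := (abs_le.1 (hC y hy)).2
  rw [card_ResQ] at h1
  have h2 : Pool.Agent.Y302.CQ.P2 Inert y ⊆ PP (fun p => p.Prime ∧ p % 56 ∈ ResQ) y ∪ {2, 7} := by
    intro p hp
    rw [Pool.Agent.Y302.CQ.P2, mem_filter, mem_range] at hp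
    obtain ⟨h1, h2, h3⟩ := hp
    rw [mem_union, mem_PP, mem_insert, mem_singleton]
    by_cases h4 : p = 2 ∨ p = 7
    · exact Or.inr h4
    · left
      push Not at h4
      refine ⟨by omega, h2, ?_⟩
      unfold ResQ
      rw [mem_filter, mem_range]
      refine ⟨Nat.mod_lt _ (by norm_num), ?_, ?_⟩
      · have h5 : Nat.Coprime p 56 := by
          rw [Nat.Prime.coprime_iff_not_dvd h2]
          intro h6
          rw [show (56 : ℕ) = 2 ^ 3 * 7 by norm_num, h2.dvd_mul] at h6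
          rcases h6 with h6 | h6
          · exact h4.1 ((Nat.prime_dvd_prime_iff_eq h2 Nat.prime_two).mp (h2.dvd_of_dvd_pow h6))
          · exact h4.2 ((Nat.prime_dvd_prime_iff_eq h2 (by norm_num)).mp h6)
        have h7 : Nat.gcd 56 p = Nat.gcd (p % 56) 56 := Nat.gcd_rec 56 p
        unfold Nat.Coprime at h5 ⊢
        rw [← h7, Nat.gcd_comm]
        exact h5
      · intro h5
        exact h3 ((inert_iff p).2 ⟨h2, h5⟩)
  have h3 : ∑ p ∈ Pool.Agent.Y302.CQ.P2 Inert y, (1 : ℝ) / p ≤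
      ∑ p ∈ PP (fun p => p.Prime ∧ p % 56 ∈ ResQ) y, (1 : ℝ) / p + (1 / 2 + 1 / 7) := by
    refine (Finset.sum_le_sum_of_subset_of_nonneg h2 fun p _ _ => by positivity).trans ?_
    have h5 := Finset.sum_union_inter (s₁ := PP (fun p => p.Prime ∧ p % 56 ∈ ResQ) y)
      (s₂ := ({2, 7} : Finset ℕ)) (f := fun p : ℕ => (1 : ℝ) / p)
    have h6 : 0 ≤ ∑ p ∈ PP (fun p => p.Prime ∧ p % 56 ∈ ResQ) y ∩ {2, 7}, (1 : ℝ) / p :=
      Finset.sum_nonneg fun p _ => by positivity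
    have h4 : ∑ p ∈ ({2, 7} : Finset ℕ), (1 : ℝ) / p = 1 / 2 + 1 / 7 := by
      rw [Finset.sum_pair (by norm_num)]
      norm_num
    linarith
  have e : ((21 : ℕ) : ℝ) / 24 = 7 / 8 := by norm_num
  rw [e] at h1
  linarith

end Pool.Agent.NH5.ABN
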